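import Mathlib

set_option autoImplicit false

namespace Pool.Agent.Results.MP_5d6127_an.Shear

open Filter Topology Metric

/-- The unit bidisc: the open unit ball of `ℂ × ℂ`, which carries the maximum norm. -/
def U2 : Set (ℂ × ℂ) := ball 0 1

/-- Normal Loewner chains on the bidisc. -/
def IsNormalLoewnerChain (f : ℝ → ℂ × ℂ → ℂ × ℂ) : Prop :=
  (∀ t : ℝ, 0 ≤ t → DifferentiableOn ℂ (f t) U2 ∧ Set.InjOn (f t) U2 ∧ f t 0 = 0 ∧
    HasFDerivAt (f t) ((Real.exp t : ℂ) • ContinuousLinearMap.id ℂ (ℂ × ℂ)) 0) ∧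
  (∀ s t : ℝ, 0 ≤ s → s ≤ t → f s '' U2 ⊆ f t '' U2) ∧
  (∀ t : ℕ → ℝ, (∀ k, 0 ≤ t k) → ∃ φ : ℕ → ℕ, StrictMono φ ∧ ∃ g : ℂ × ℂ → ℂ × ℂ,
    TendstoLocallyUniformlyOn
      (fun k z => (Real.exp (-(t (φ k))) : ℂ) • f (t (φ k)) z) g atTop U2)

/-- The class `S⁰(𝕌², M)`. -/
def S0 (M : ℝ) : Set (ℂ × ℂ → ℂ × ℂ) :=
  {g | (∃ f : ℝ → ℂ × ℂ → ℂ × ℂ, IsNormalLoewnerChain f ∧ g = f 0) ∧ ∀ z ∈ U2, ‖g z‖ ≤ M}

/-- The coefficient `a¹_{0,2}`: half the second `z₂`-derivative of the first component at `0`. -/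
noncomputable def a102 (g : ℂ × ℂ → ℂ × ℂ) : ℂ :=
  (1 / 2) * iteratedDeriv 2 (fun w : ℂ => (g (0, w)).1) 0

/-- The shear `(z₁ + a z₂², z₂)`. -/
noncomputable def shear (a : ℝ) (z : ℂ × ℂ) : ℂ × ℂ := (z.1 + a * z.2 ^ 2, z.2)

lemma mem_U2 (z : ℂ × ℂ) : z ∈ U2 ↔ ‖z.1‖ < 1 ∧ ‖z.2‖ < 1 := by
  simp [U2, Prod.norm_def]

lemma shear_inj (a : ℝ) : Function.Injective (shear a) := by
  intro z w h
  simp only [shear, Prod.mk.injEq] at h
  obtain ⟨h1, h2⟩ := h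
  rw [h2] at h1
  exact Prod.ext (add_right_cancel h1) h2

lemma shear_deriv (a : ℝ) : HasFDerivAt (shear a) (ContinuousLinearMap.id ℂ (ℂ × ℂ)) 0 := by
  have h1 : HasFDerivAt (fun z : ℂ × ℂ => z.1) (ContinuousLinearMap.fst ℂ ℂ ℂ) 0 :=
    hasFDerivAt_fst
  have h2 : HasFDerivAt (fun z : ℂ × ℂ => z.2) (ContinuousLinearMap.snd ℂ ℂ ℂ) 0 :=
    hasFDerivAt_snd
  have h3 := (h1.add ((h2.pow 2).const_mul (a : ℂ))).prodMk h2
  refine HasFDerivAt.congr_fderiv h3 ?_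
  ext <;> simp

lemma chain {a : ℝ} (h0 : 0 ≤ a) (h1 : a ≤ 1) :
    IsNormalLoewnerChain (fun t z => (Real.exp t : ℂ) • shear a z) := by
  refine ⟨fun t _ => ⟨?_, ?_, ?_, ?_⟩, ?_, ?_⟩
  · apply Differentiable.differentiableOn
    unfold shear
    fun_prop
  · intro z _ w _ h
    exact shear_inj a (smul_right_injective _ (by simp) h)
  · simp [shear]
  · exact (shear_deriv a).const_smul (Real.exp t : ℂ)
  · rintro s t _ hst _ ⟨z, hz, rfl⟩
    rw [mem_U2] at hz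
    set r : ℝ := Real.exp (s - t) with hr
    have hr0 : 0 < r := Real.exp_pos _
    have hr1 : r ≤ 1 := Real.exp_le_one_iff.mpr (by linarith)
    have hs : Real.exp s = Real.exp t * r := by rw [hr, ← Real.exp_add]; ring_nf
    refine ⟨(r * z.1 + (a * (r * (1 - r)) : ℝ) * z.2 ^ 2, r * z.2), ?_, ?_⟩
    · rw [mem_U2]
      constructor
      · have hb : 0 ≤ a * (r * (1 - r)) := by
          have : 0 ≤ 1 - r := by linarith
          positivity
        calc _ ≤ ‖(r : ℂ) * z.1‖ + ‖((a * (r * (1 - r)) : ℝ) : ℂ) * z.2 ^ 2‖ := norm_add_le _ _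
          _ = r * ‖z.1‖ + a * (r * (1 - r)) * ‖z.2‖ ^ 2 := by
            rw [norm_mul, norm_mul, norm_pow, Complex.norm_real, Complex.norm_real,
              Real.norm_of_nonneg hr0.le, Real.norm_of_nonneg hb]
          _ < 1 := by
            have h2 : ‖z.2‖ ^ 2 ≤ 1 := pow_le_one₀ (norm_nonneg _) hz.2.le
            have h3 : r * ‖z.1‖ < r := by nlinarith [hz.1]
            have h4 : a * (r * (1 - r)) * ‖z.2‖ ^ 2 ≤ a * (r * (1 - r)) := by nlinarith
            have h5 : a * (r * (1 - r)) ≤ r * (1 - r) := by nlinarith [mul_nonneg hr0.le (sub_nonneg.mpr hr1)]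
            nlinarith
      · simp only [norm_mul, Complex.norm_real, Real.norm_of_nonneg hr0.le]
        nlinarith [hz.2, norm_nonneg z.2]
    · simp only [shear, hs, Prod.smul_mk, smul_eq_mul, Prod.mk.injEq]
      push_cast
      constructor <;> ring
  · intro t _
    refine ⟨id, strictMono_id, shear a, ?_⟩
    have : (fun k z => (Real.exp (-(t (id k))) : ℂ) • ((Real.exp (t (id k)) : ℂ) • shear a z)) =
        fun _ z => shear a z := by
      funext k z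
      rw [smul_smul, ← Complex.ofReal_mul, ← Real.exp_add]
      simp
    rw [this]
    intro u hu x _
    exact ⟨Set.univ, univ_mem, Eventually.of_forall fun _ _ _ => refl_mem_uniformity hu⟩

lemma coeff (a : ℝ) : a102 (fun z => (Real.exp 0 : ℂ) • shear a z) = a := by
  have h : (fun w : ℂ => ((Real.exp 0 : ℂ) • shear a (0, w)).1) = fun w : ℂ => (a : ℂ) * w ^ 2 := by
    funext w; simp [shear]
  have h1 : deriv (fun w : ℂ => (a : ℂ) * w ^ 2) = fun w : ℂ => (a : ℂ) * (2 * w) := by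
    funext w
    simpa using ((hasDerivAt_pow 2 w).const_mul (a : ℂ)).deriv
  have h2 : deriv (fun w : ℂ => (a : ℂ) * (2 * w)) 0 = a * 2 := by
    simpa using (((hasDerivAt_id (0 : ℂ)).const_mul 2).const_mul (a : ℂ)).deriv
  unfold a102
  rw [h, iteratedDeriv_succ, iteratedDeriv_one, h1, h2]
  ring

theorem result : ∀ M : ℝ, 1 < M → ∃ g ∈ S0 M, 1 - 1 / M < ‖a102 g‖ := by
  intro M hM
  have h0 : 0 ≤ min (M - 1) 1 := le_min (by linarith) zero_le_one
  refine ⟨fun z => (Real.exp 0 : ℂ) • shear (min (M - 1) 1) z,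
    ⟨⟨_, chain h0 (min_le_right _ _), rfl⟩, ?_⟩, ?_⟩
  · intro z hz
    rw [mem_U2] at hz
    simp only [Real.exp_zero, Complex.ofReal_one, one_smul, shear, Prod.norm_def, max_le_iff]
    refine ⟨?_, by linarith [hz.2]⟩
    have h2 : ‖z.2‖ ^ 2 ≤ 1 := pow_le_one₀ (norm_nonneg _) hz.2.le
    calc _ ≤ ‖z.1‖ + ‖((min (M - 1) 1 : ℝ) : ℂ) * z.2 ^ 2‖ := norm_add_le _ _
      _ = ‖z.1‖ + min (M - 1) 1 * ‖z.2‖ ^ 2 := by
        rw [norm_mul, norm_pow, Complex.norm_real, Real.norm_of_nonneg h0]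
      _ ≤ M := by nlinarith [hz.1, min_le_left (M - 1) 1]
  · rw [coeff, Complex.norm_real, Real.norm_of_nonneg h0, lt_min_iff]
    have hM0 : 0 < M := by linarith
    constructor
    · rw [sub_lt_iff_lt_add, ← sub_lt_iff_lt_add', lt_div_iff₀ hM0]
      nlinarith
    · have : 0 < 1 / M := by positivity
      linarith

end Pool.Agent.Results.MP_5d6127_an.Shear
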